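import Pool.Agent.Q99.HU.Stm1

/-!
# HT-NDi: distances
-/

set_option autoImplicit false

namespace Pool.Agent.Q99.HU.Q166

open Finset Filter Topology
open Pool.Agent.Q99.HT
open Pool.Agent.Q99.FAL (Pc Ty Val Pri Pos AS Sol Out c6 fV n1 n2 cor dn)

lemma bf_bf {R : Type} (β : Bool) (x : Fin 6 → R) : bf β (bf β x) = x := by
  cases β
  · funext i
    fin_cases i <;> rfl
  · rfl

lemma bf_all {R : Type} (P : R → Prop) (β : Bool) (x : Fin 6 → R) :
    (∀ i, P (bf β x i)) ↔ ∀ i, P (x i) := by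
  cases β
  · constructor
    · intro h i
      fin_cases i
      · exact h 0
      · exact h 2
      · exact h 1
      · exact h 3
      · exact h 5
      · exact h 4
    · intro h i
      fin_cases i
      · exact h 0
      · exact h 2
      · exact h 1
      · exact h 3
      · exact h 5
      · exact h 4
  · exact Iff.rfl

variable {c d : ℕ}

/-- the change of the corners -/
noncomputable def dX' (Y : Nw c d) (T : Fin d → ℂ) (s : Fin c) (i : Fin 3) : ℂ :=
  ∑ j, (T j - Y.τ j) * Y.E j s i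

/-- the change of the angles -/
noncomputable def dl (Y : Nw c d) (T : Fin d → ℂ) (J ζ : Fin c → ℂ) (s : Fin c) : Fin 6 → ℂ :=
  ![dX' Y T s 0, J s - Y.α s 1, ζ s / 2 - dX' Y T s 0 - (J s - Y.α s 1), dX' Y T s 2,
    dX' Y T s 1 - (J s - Y.α s 1), -(ζ s / 2) - dX' Y T s 2 - (dX' Y T s 1 - (J s - Y.α s 1))]

lemma x_eq (Y : Nw c d) (hY : Y.Okb) (T : Fin d → ℂ) (s : Fin c) (i : Fin 3) :
    Y.x T s i = qc (Y.α s) i + dX' Y T s i := by
  unfold Nw.x dX'
  have h := congrArg (fun r : ℝ => (r : ℂ)) (hY.ctr s i)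
  rw [h]
  push_cast
  rw [add_assoc, ← Finset.sum_add_distrib]
  congr 1
  apply Finset.sum_congr rfl
  intro j _
  ring

lemma sx_eq (Y : Nw c d) (hY : Y.Okb) (β : Fin c → Bool) (T : Fin d → ℂ) (J ζ : Fin c → ℂ)
    (s : Fin c) : sx (β s) (1 / 2) (Y.v T J s) (ζ s) =
      fun i => (bf (β s) (fun i => (Y.α s i : ℂ)) i) + bf (β s) (dl Y T J ζ s) i := by
  have e0 := x_eq Y hY T s 0
  have e1 := x_eq Y hY T s 1
  have e2 := x_eq Y hY T s 2
  have q0 : qc (Y.α s) 0 = Y.α s 0 := rfl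
  have q1 : qc (Y.α s) 1 = Y.α s 1 + Y.α s 4 := rfl
  have q2 : qc (Y.α s) 2 = Y.α s 3 := rfl
  rw [q0] at e0
  rw [q1] at e1
  rw [q2] at e2
  have s1 : ((Y.α s 0 : ℝ) : ℂ) + Y.α s 1 + Y.α s 2 = 1 / 2 := by
    have := congrArg (fun r : ℝ => (r : ℂ)) (hY.fr s).s1
    push_cast at this
    exact this
  have s2 : ((Y.α s 3 : ℝ) : ℂ) + Y.α s 4 + Y.α s 5 = 1 / 2 := by
    have := congrArg (fun r : ℝ => (r : ℂ)) (hY.fr s).s2
    push_cast at this
    exact this
  have key : (![Y.v T J s 0, Y.v T J s 3, 1 / 2 + ζ s / 2 - Y.v T J s 0 - Y.v T J s 3,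
      Y.v T J s 2, Y.v T J s 1 - Y.v T J s 3,
      1 / 2 - ζ s / 2 - Y.v T J s 2 - (Y.v T J s 1 - Y.v T J s 3)] : Fin 6 → ℂ) =
      fun i => (Y.α s i : ℂ) + dl Y T J ζ s i := by
    have v0 : Y.v T J s 0 = Y.x T s 0 := rfl
    have v1 : Y.v T J s 1 = Y.x T s 1 := rfl
    have v2 : Y.v T J s 2 = Y.x T s 2 := rfl
    have v3 : Y.v T J s 3 = J s := rfl
    rw [v0, v1, v2, v3, e0, e1, e2]
    push_cast
    funext i
    fin_cases i
    · rfl
    · show J s = Y.α s 1 + (J s - Y.α s 1)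
      ring
    · show 1 / 2 + ζ s / 2 - (Y.α s 0 + dX' Y T s 0) - J s =
        Y.α s 2 + (ζ s / 2 - dX' Y T s 0 - (J s - Y.α s 1))
      linear_combination -s1
    · rfl
    · show (Y.α s 1 : ℂ) + Y.α s 4 + dX' Y T s 1 - J s =
        Y.α s 4 + (dX' Y T s 1 - (J s - Y.α s 1))
      ring
    · show 1 / 2 - ζ s / 2 - (Y.α s 3 + dX' Y T s 2) -
        ((Y.α s 1 : ℂ) + Y.α s 4 + dX' Y T s 1 - J s) =
        Y.α s 5 + (-(ζ s / 2) - dX' Y T s 2 - (dX' Y T s 1 - (J s - Y.α s 1)))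
      linear_combination -s2
  unfold sx
  rw [key]
  cases β s
  · funext i
    fin_cases i <;> rfl
  · rfl

/-- `T` is controlled by the corners -/
lemma inj_bd (Y : Nw c d) (hY : Y.Okb) : ∃ K : ℝ, 0 ≤ K ∧ ∀ (T : Fin d → ℂ) (ρ : ℝ), 0 < ρ →
    (∀ s i, ‖dX' Y T s i‖ ≤ ρ) → ∀ j, ‖T j - Y.τ j‖ ≤ K * ρ := by
  let f : (Fin d → ℝ) →ₗ[ℝ] (Fin c → Fin 3 → ℝ) :=
    { toFun := fun t s i => ∑ j, t j * Y.E j s i
      map_add' := by
        intro t t'
        funext s i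
        simp only [Pi.add_apply, add_mul, Finset.sum_add_distrib]
      map_smul' := by
        intro r t
        funext s i
        simp only [Pi.smul_apply, smul_eq_mul, RingHom.id_apply, Finset.mul_sum, mul_assoc] }
  have hker : LinearMap.ker f = ⊥ := by
    rw [LinearMap.ker_eq_bot']
    intro t ht
    apply hY.inj t
    intro s i
    exact congrFun (congrFun ht s) i
  obtain ⟨K, hK0, hK⟩ := f.exists_antilipschitzWith hker
  have hbd : ∀ t : Fin d → ℝ, ∀ ρ : ℝ, 0 < ρ → (∀ s i, |∑ j, t j * Y.E j s i| ≤ ρ) →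
      ∀ j, |t j| ≤ K * ρ := by
    intro t ρ hρ h j
    have h1 : ‖t‖ ≤ K * ‖f t‖ := by
      have := hK.le_mul_dist t 0
      simpa [dist_eq_norm] using this
    have h2 : ‖f t‖ ≤ ρ := by
      rw [pi_norm_le_iff_of_nonneg hρ.le]
      intro s
      rw [pi_norm_le_iff_of_nonneg hρ.le]
      intro i
      exact h s i
    calc |t j| ≤ ‖t‖ := norm_le_pi_norm t j
      _ ≤ K * ‖f t‖ := h1
      _ ≤ K * ρ := mul_le_mul_of_nonneg_left h2 K.2
  refine ⟨2 * K, by positivity, ?_⟩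
  intro T ρ hρ h j
  have hre := hbd (fun j => (T j - Y.τ j).re) ρ hρ (by
    intro s i
    have : ∑ j, (T j - Y.τ j).re * (Y.E j s i : ℝ) = (dX' Y T s i).re := by
      unfold dX'
      rw [Complex.re_sum]
      apply Finset.sum_congr rfl
      intro j _
      rw [show ((Y.E j s i : ℤ) : ℂ) = (((Y.E j s i : ℤ) : ℝ) : ℂ) by push_cast; rfl,
        Complex.re_mul_ofReal]
    rw [this]
    exact (Complex.abs_re_le_norm _).trans (h s i)) j
  have him := hbd (fun j => (T j - Y.τ j).im) ρ hρ (by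
    intro s i
    have : ∑ j, (T j - Y.τ j).im * (Y.E j s i : ℝ) = (dX' Y T s i).im := by
      unfold dX'
      rw [Complex.im_sum]
      apply Finset.sum_congr rfl
      intro j _
      rw [show ((Y.E j s i : ℤ) : ℂ) = (((Y.E j s i : ℤ) : ℝ) : ℂ) by push_cast; rfl,
        Complex.im_mul_ofReal]
    rw [this]
    exact (Complex.abs_im_le_norm _).trans (h s i)) j
  have := Complex.norm_le_abs_re_add_abs_im (T j - Y.τ j)
  linarith

theorem task_NDi : S_NDib := by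
  intro D hV hP hD a hM d β Y hN hY
  obtain ⟨K, hK0, hK⟩ := inj_bd Y hY
  set M : ℝ := ∑ j, ∑ s, ∑ i, |(Y.E j s i : ℝ)| with hM'
  have hM0 : 0 ≤ M := by positivity
  have hab : ∀ s i, (a s i : ℂ) = bf (β s) (fun i => (Y.α s i : ℂ)) i := by
    intro s i
    have h1 : a s = bf (β s) (Y.α s) := by rw [hN.al s, bf_bf]
    rw [h1]
    cases β s
    · fin_cases i <;> rfl
    · rfl
  have hdiff : ∀ (T : Fin d → ℂ) (J ζ : Fin D.length → ℂ) s i,
      sx (β s) (1 / 2) (Y.v T J s) (ζ s) i - a s i = bf (β s) (dl Y T J ζ s) i := by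
    intro T J ζ s i
    rw [sx_eq Y hY β T J ζ s, hab]
    simp
  refine ⟨2 * M + 2 * K + 7, by linarith, ?_⟩
  intro ρ T J ζ hρ
  constructor
  · rintro ⟨h1, h2, h3⟩
    have hX : ∀ s i, ‖dX' Y T s i‖ ≤ M * ρ := by
      intro s i
      unfold dX'
      calc ‖∑ j, (T j - Y.τ j) * (Y.E j s i : ℂ)‖ ≤ ∑ j, ‖(T j - Y.τ j) * (Y.E j s i : ℂ)‖ :=
            norm_sum_le _ _
        _ ≤ ∑ j, ρ * (∑ s, ∑ i, |(Y.E j s i : ℝ)|) := by
          apply Finset.sum_le_sum
          intro j _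
          rw [norm_mul]
          apply mul_le_mul (h1 j).le _ (norm_nonneg _) hρ.le
          rw [Complex.norm_intCast]
          calc |((Y.E j s i : ℤ) : ℝ)| ≤ ∑ i, |(Y.E j s i : ℝ)| :=
                Finset.single_le_sum (f := fun i => |(Y.E j s i : ℝ)|)
                  (fun i _ => abs_nonneg _) (Finset.mem_univ i)
            _ ≤ ∑ s, ∑ i, |(Y.E j s i : ℝ)| :=
                Finset.single_le_sum (f := fun s => ∑ i, |(Y.E j s i : ℝ)|)
                  (fun s _ => Finset.sum_nonneg fun i _ => abs_nonneg _) (Finset.mem_univ s)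
        _ = M * ρ := by rw [← Finset.mul_sum, mul_comm]
    intro s i
    rw [hdiff]
    revert i
    rw [bf_all (fun z : ℂ => ‖z‖ < (2 * M + 2 * K + 7) * ρ) (β s)]
    have g0 := hX s 0
    have g1 := hX s 1
    have g2 := hX s 2
    have g3 := h2 s
    have g4 := h3 s
    have g5 : ‖ζ s / 2‖ = ‖ζ s‖ / 2 := by rw [norm_div]; simp
    have hKρ : 0 ≤ K * ρ := by positivity
    have hMρ : 0 ≤ M * ρ := by positivity
    intro i
    fin_cases i
    · show ‖dX' Y T s 0‖ < _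
      linarith
    · show ‖J s - Y.α s 1‖ < _
      linarith
    · show ‖ζ s / 2 - dX' Y T s 0 - (J s - Y.α s 1)‖ < _
      have e1 := norm_sub_le (ζ s / 2 - dX' Y T s 0) (J s - Y.α s 1)
      have e2 := norm_sub_le (ζ s / 2) (dX' Y T s 0)
      linarith
    · show ‖dX' Y T s 2‖ < _
      linarith
    · show ‖dX' Y T s 1 - (J s - Y.α s 1)‖ < _
      have e1 := norm_sub_le (dX' Y T s 1) (J s - Y.α s 1)
      linarith
    · show ‖-(ζ s / 2) - dX' Y T s 2 - (dX' Y T s 1 - (J s - Y.α s 1))‖ < _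
      have e1 := norm_sub_le (dX' Y T s 1) (J s - Y.α s 1)
      have e2 := norm_sub_le (-(ζ s / 2) - dX' Y T s 2) (dX' Y T s 1 - (J s - Y.α s 1))
      have e3 := norm_sub_le (-(ζ s / 2)) (dX' Y T s 2)
      rw [norm_neg] at e3
      linarith
  · intro h
    have hb : ∀ s i, ‖dl Y T J ζ s i‖ < ρ := by
      intro s
      have h' := h s
      simp only [hdiff] at h'
      rwa [bf_all (fun z : ℂ => ‖z‖ < ρ) (β s)] at h'
    have hX : ∀ s i, ‖dX' Y T s i‖ ≤ 2 * ρ := by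
      intro s i
      have b0 : ‖dX' Y T s 0‖ < ρ := hb s 0
      have b1 : ‖J s - Y.α s 1‖ < ρ := hb s 1
      have b3 : ‖dX' Y T s 2‖ < ρ := hb s 3
      have b4 : ‖dX' Y T s 1 - (J s - Y.α s 1)‖ < ρ := hb s 4
      fin_cases i
      · show ‖dX' Y T s 0‖ ≤ _
        linarith
      · show ‖dX' Y T s 1‖ ≤ _
        have e1 := norm_add_le (dX' Y T s 1 - (J s - Y.α s 1)) (J s - Y.α s 1)
        rw [sub_add_cancel] at e1
        linarith
      · show ‖dX' Y T s 2‖ ≤ _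
        linarith
    have hMρ : 0 ≤ M * ρ := by positivity
    have hKρ : 0 ≤ K * ρ := by positivity
    refine ⟨fun j => ?_, fun s => ?_, fun s => ?_⟩
    · have := hK T (2 * ρ) (by positivity) hX j
      linarith
    · have b1 : ‖J s - Y.α s 1‖ < ρ := hb s 1
      linarith
    · have b0 : ‖dX' Y T s 0‖ < ρ := hb s 0
      have b1 : ‖J s - Y.α s 1‖ < ρ := hb s 1
      have b2 : ‖ζ s / 2 - dX' Y T s 0 - (J s - Y.α s 1)‖ < ρ := hb s 2
      have e : ζ s = 2 * (dX' Y T s 0 + (J s - Y.α s 1) +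
          (ζ s / 2 - dX' Y T s 0 - (J s - Y.α s 1))) := by ring
      rw [e, norm_mul]
      have e1 := norm_add_le (dX' Y T s 0 + (J s - Y.α s 1))
        (ζ s / 2 - dX' Y T s 0 - (J s - Y.α s 1))
      have e2 := norm_add_le (dX' Y T s 0) (J s - Y.α s 1)
      have e3 : ‖(2 : ℂ)‖ = 2 := by simp
      rw [e3]
      linarith

end Pool.Agent.Q99.HU.Q166
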