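import Pool.Agent.Q99.HU.Stm1
import Pool.Agent.Q224.FAL.GD
import Pool.Agent.Q237.FAL.SO
import Pool.Agent.Q237.FAL.OZ
import Pool.Agent.Q299.FAL.SP
import Pool.Agent.Q99.HU.Q166.NDi
import Pool.Agent.W719.BS.LLp

/-!
# HT-NT: complex angle structures and the variables of the network
-/

set_option autoImplicit false

namespace Pool.Agent.Q99.HU.Q166

open Finset Filter Topology
open Pool.Agent.Q99.HT
open Pool.Agent.Q99.FAL (Pc Ty Val Pri Pos AS Sol Out c6 fV n1 n2 cor dn toR IsLat S_SO S_OZ)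
open Pool.Agent.Q99.KN (S_LC LC bb St)
open Pool.Agent.W719.BS (LL LL_half LL_sub')
open Pool.Agent.W358.BSTay (gg)
open Pool.Agent.Q224.FAL (Sol_cor n12' sol_add sol_smul lat)

/-! ### `LC 0 = 0` -/

theorem LC_zero : LC 0 = 0 := by
  have h3 : LC 0 = ((0:ℝ) - 1 / 2 : ℝ) •
      ∫ t in (0:ℝ)..1, ((gg (1 / 2 + ((0:ℝ) - 1 / 2) * t) : ℝ) : ℂ) := by
    unfold LC
    rw [intervalIntegral.integral_const_mul, Complex.real_smul]
    push_cast
    congr 1
    refine intervalIntegral.integral_congr fun t ht => ?_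
    rw [Set.uIcc_of_le zero_le_one] at ht
    have h4 : (1 / 2 + (t : ℂ) * (0 - 1 / 2)) = ((1 / 2 + ((0:ℝ) - 1 / 2) * t : ℝ) : ℂ) := by
      push_cast
      ring
    show bb (1 / 2 + (t : ℂ) * (0 - 1 / 2)) = _
    rw [h4]
    unfold bb gg
    have h5 : 0 ≤ 2 * Real.sin (Real.pi * (1 / 2 + ((0:ℝ) - 1 / 2) * t)) := by
      have h6 : 0 ≤ 1 / 2 + ((0:ℝ) - 1 / 2) * t := by nlinarith [ht.1, ht.2]
      have h7 : 1 / 2 + ((0:ℝ) - 1 / 2) * t ≤ 1 := by nlinarith [ht.1, ht.2]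
      have h8 : 0 ≤ Real.sin (Real.pi * (1 / 2 + ((0:ℝ) - 1 / 2) * t)) := by
        refine Real.sin_nonneg_of_nonneg_of_le_pi (mul_nonneg Real.pi_pos.le h6) ?_
        calc Real.pi * (1 / 2 + ((0:ℝ) - 1 / 2) * t) ≤ Real.pi * 1 :=
              mul_le_mul_of_nonneg_left h7 Real.pi_pos.le
          _ = Real.pi := mul_one _
      positivity
    rw [Complex.ofReal_log h5]
    push_cast
    rfl
  have h2 : LL 0 = ∫ t in (1 / 2 : ℝ)..0, gg t := by
    rw [← LL_sub', LL_half, sub_zero]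
  have h1 : LL 0 = 0 := by
    unfold LL
    exact intervalIntegral.integral_same
  rw [h3, intervalIntegral.smul_integral_comp_add_mul
    (fun s : ℝ => ((gg s : ℝ) : ℂ)) ((0:ℝ) - 1 / 2) (1 / 2)]
  have e1 : (1 / 2 : ℝ) + ((0:ℝ) - 1 / 2) * 0 = 1 / 2 := by ring
  have e2 : (1 / 2 : ℝ) + ((0:ℝ) - 1 / 2) * 1 = 0 := by ring
  rw [e1, e2, intervalIntegral.integral_ofReal, ← h2, h1, Complex.ofReal_zero]

/-! ### six angles -/

lemma n1_bf {R : Type} [CommRing R] (β : Bool) (x : Fin 6 → R) : n1 (bf β x) = n1 x := by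
  cases β
  · show x 0 + x 2 + x 1 = x 0 + x 1 + x 2
    ring
  · rfl

lemma n2_bf {R : Type} [CommRing R] (β : Bool) (x : Fin 6 → R) : n2 (bf β x) = n2 x := by
  cases β
  · show x 3 + x 5 + x 4 = x 3 + x 4 + x 5
    ring
  · rfl

lemma cv_bf {R : Type} [CommRing R] (β : Bool) (y : Fin 6 → R) :
    cv β (bf β y) = ![y 0, y 1 + y 4, y 3] := by
  cases β <;> rfl

lemma cv_eq {R : Type} [CommRing R] (β : Bool) (x : Fin 6 → R) :
    cv β x = ![(bf β x) 0, (bf β x) 1 + (bf β x) 4, (bf β x) 3] := by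
  cases β <;> rfl

lemma cor_of_cv {R : Type} [CommRing R] (β : Bool) (x x' : Fin 6 → R) (h : cv β x = cv β x')
    (h' : n1 x + n2 x = n1 x' + n2 x') : cor x = cor x' := by
  have g0 := congrFun h 0
  have g1 := congrFun h 1
  have g2 := congrFun h 2
  unfold n1 n2 at h'
  cases β
  · have k0 : x 0 = x' 0 := g0
    have k1 : x 2 + x 5 = x' 2 + x' 5 := g1
    have k2 : x 3 = x' 3 := g2
    funext i
    fin_cases i
    · exact k0
    · show x 1 + x 4 = x' 1 + x' 4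
      linear_combination h' - k0 - k1 - k2
    · exact k2
    · exact k1
  · have k0 : x 0 = x' 0 := g0
    have k1 : x 1 + x 4 = x' 1 + x' 4 := g1
    have k2 : x 3 = x' 3 := g2
    funext i
    fin_cases i
    · exact k0
    · exact k1
    · exact k2
    · show x 2 + x 5 = x' 2 + x' 5
      linear_combination h' - k0 - k1 - k2

/-- sums over the angles do not see `bf` -/
lemma sum_bf {R S M : Type} [CommRing R] [CommRing S] [AddCommMonoid M] (β : Bool)
    (F : R → R → S → S → M) (x : Fin 6 → R) (y : Fin 6 → S) :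
    ∑ i, F (dn (bf β x) i) (bf β x i) (dn (bf β y) i) (bf β y i) =
      ∑ i, F (dn x i) (x i) (dn y i) (y i) := by
  cases β
  · simp only [Fin.sum_univ_six]
    have e : ∀ {R : Type} [CommRing R] (x : Fin 6 → R), dn (bf false x) 0 = dn x 0 ∧
        dn (bf false x) 1 = dn x 2 ∧ dn (bf false x) 2 = dn x 1 ∧ dn (bf false x) 3 = dn x 3 ∧
        dn (bf false x) 4 = dn x 5 ∧ dn (bf false x) 5 = dn x 4 := by
      intro R _ x
      refine ⟨n2_bf false x, n1_bf false x, n1_bf false x, n1_bf false x, n2_bf false x,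
        n2_bf false x⟩
    obtain ⟨a0, a1, a2, a3, a4, a5⟩ := e x
    obtain ⟨b0, b1, b2, b3, b4, b5⟩ := e y
    rw [a0, a1, a2, a3, a4, a5, b0, b1, b2, b3, b4, b5]
    have c0 : ∀ {R : Type} (x : Fin 6 → R), bf false x 0 = x 0 ∧
        bf false x 1 = x 2 ∧ bf false x 2 = x 1 ∧ bf false x 3 = x 3 ∧
        bf false x 4 = x 5 ∧ bf false x 5 = x 4 := by
      intro R x
      exact ⟨rfl, rfl, rfl, rfl, rfl, rfl⟩
    obtain ⟨a0, a1, a2, a3, a4, a5⟩ := c0 x
    obtain ⟨b0, b1, b2, b3, b4, b5⟩ := c0 y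
    rw [a0, a1, a2, a3, a4, a5, b0, b1, b2, b3, b4, b5]
    abel
  · rfl

/-- the six angles before `bf` -/
noncomputable def sy (h : ℂ) (v : Fin 4 → ℂ) (ζ : ℂ) : Fin 6 → ℂ :=
  ![v 0, v 3, h + ζ / 2 - v 0 - v 3, v 2, v 1 - v 3, h - ζ / 2 - v 2 - (v 1 - v 3)]

lemma sx_sy (β : Bool) (h : ℂ) (v : Fin 4 → ℂ) (ζ : ℂ) : sx β h v ζ = bf β (sy h v ζ) := rfl

lemma n1_sy (h : ℂ) (v : Fin 4 → ℂ) (ζ : ℂ) : n1 (sy h v ζ) = h + ζ / 2 := by
  show v 0 + v 3 + (h + ζ / 2 - v 0 - v 3) = _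
  ring

lemma n2_sy (h : ℂ) (v : Fin 4 → ℂ) (ζ : ℂ) : n2 (sy h v ζ) = h - ζ / 2 := by
  show v 2 + (v 1 - v 3) + (h - ζ / 2 - v 2 - (v 1 - v 3)) = _
  ring

lemma n1_sx (β : Bool) (h : ℂ) (v : Fin 4 → ℂ) (ζ : ℂ) : n1 (sx β h v ζ) = h + ζ / 2 := by
  rw [sx_sy, n1_bf, n1_sy]

lemma n2_sx (β : Bool) (h : ℂ) (v : Fin 4 → ℂ) (ζ : ℂ) : n2 (sx β h v ζ) = h - ζ / 2 := by
  rw [sx_sy, n2_bf, n2_sy]

lemma dn_sy (h : ℂ) (v : Fin 4 → ℂ) (ζ : ℂ) (i : Fin 6) :
    dn (sy h v ζ) i = h + s6 i * ζ / 2 := by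
  unfold dn
  rw [n1_sy, n2_sy]
  fin_cases i
  · show h - ζ / 2 = h + (-1) * ζ / 2
    ring
  · show h + ζ / 2 = h + 1 * ζ / 2
    ring
  · show h + ζ / 2 = h + 1 * ζ / 2
    ring
  · show h + ζ / 2 = h + 1 * ζ / 2
    ring
  · show h - ζ / 2 = h + (-1) * ζ / 2
    ring
  · show h - ζ / 2 = h + (-1) * ζ / 2
    ring

/-! ### the terms -/

lemma gT_sub (ν ξ a b : ℂ) : gT ν (ν - ξ) a (a - b) = gT ν ξ a b := by
  unfold gT
  rw [sub_sub_cancel]
  ring

lemma LT_sub (ν ξ : ℂ) : LT ν (ν - ξ) = LT ν ξ := by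
  unfold Pool.Agent.Q99.HT.LT
  rw [sub_sub_cancel]
  ring

lemma gT_zero (ν a : ℂ) : gT ν 0 a 0 = 0 := by
  unfold gT
  rw [sub_zero]
  ring

lemma LT_zero (ν : ℂ) : LT ν 0 = 0 := by
  unfold Pool.Agent.Q99.HT.LT
  rw [sub_zero, LC_zero]
  ring

lemma term_gT (v u : Fin 4 → ℂ) (ζ b : ℂ) (i : Fin 6) :
    gT (dn (sy (1 / 2) v ζ) i) (sy (1 / 2) v ζ i) (dn (sy 0 u b) i) (sy 0 u b i) =
      gT (nz ζ i) (lf v i) (s6 i * b / 2) (lf u i) := by
  rw [dn_sy, dn_sy, zero_add]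
  have e : (1 : ℂ) / 2 + s6 i * ζ / 2 = nz ζ i := rfl
  rw [e]
  fin_cases i
  · rfl
  · rfl
  · show gT (nz ζ 2) (1 / 2 + ζ / 2 - v 0 - v 3) (s6 2 * b / 2) (0 + b / 2 - u 0 - u 3) =
      gT (nz ζ 2) (v 0 + v 3) (s6 2 * b / 2) (u 0 + u 3)
    rw [← gT_sub (nz ζ 2) (v 0 + v 3)]
    have e1 : (1 : ℂ) / 2 + ζ / 2 - v 0 - v 3 = nz ζ 2 - (v 0 + v 3) := by
      show _ = (1 : ℂ) / 2 + 1 * ζ / 2 - (v 0 + v 3)
      ring
    have e2 : (0 : ℂ) + b / 2 - u 0 - u 3 = s6 2 * b / 2 - (u 0 + u 3) := by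
      show _ = 1 * b / 2 - (u 0 + u 3)
      ring
    rw [e1, e2]
  · rfl
  · rfl
  · show gT (nz ζ 5) (1 / 2 - ζ / 2 - v 2 - (v 1 - v 3)) (s6 5 * b / 2)
        (0 - b / 2 - u 2 - (u 1 - u 3)) =
      gT (nz ζ 5) (v 2 + (v 1 - v 3)) (s6 5 * b / 2) (u 2 + (u 1 - u 3))
    rw [← gT_sub (nz ζ 5) (v 2 + (v 1 - v 3))]
    have e1 : (1 : ℂ) / 2 - ζ / 2 - v 2 - (v 1 - v 3) = nz ζ 5 - (v 2 + (v 1 - v 3)) := by
      show _ = (1 : ℂ) / 2 + (-1) * ζ / 2 - (v 2 + (v 1 - v 3))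
      ring
    have e2 : (0 : ℂ) - b / 2 - u 2 - (u 1 - u 3) = s6 5 * b / 2 - (u 2 + (u 1 - u 3)) := by
      show _ = (-1) * b / 2 - (u 2 + (u 1 - u 3))
      ring
    rw [e1, e2]

lemma term_LT (v : Fin 4 → ℂ) (ζ : ℂ) (i : Fin 6) :
    LT (dn (sy (1 / 2) v ζ) i) (sy (1 / 2) v ζ i) = LT (nz ζ i) (lf v i) := by
  rw [dn_sy]
  have e : (1 : ℂ) / 2 + s6 i * ζ / 2 = nz ζ i := rfl
  rw [e]
  fin_cases i
  · rfl
  · rfl
  · show LT (nz ζ 2) (1 / 2 + ζ / 2 - v 0 - v 3) = LT (nz ζ 2) (v 0 + v 3)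
    rw [← LT_sub (nz ζ 2) (v 0 + v 3)]
    have e1 : (1 : ℂ) / 2 + ζ / 2 - v 0 - v 3 = nz ζ 2 - (v 0 + v 3) := by
      show _ = (1 : ℂ) / 2 + 1 * ζ / 2 - (v 0 + v 3)
      ring
    rw [e1]
  · rfl
  · rfl
  · show LT (nz ζ 5) (1 / 2 - ζ / 2 - v 2 - (v 1 - v 3)) = LT (nz ζ 5) (v 2 + (v 1 - v 3))
    rw [← LT_sub (nz ζ 5) (v 2 + (v 1 - v 3))]
    have e1 : (1 : ℂ) / 2 - ζ / 2 - v 2 - (v 1 - v 3) = nz ζ 5 - (v 2 + (v 1 - v 3)) := by
      show _ = (1 : ℂ) / 2 + (-1) * ζ / 2 - (v 2 + (v 1 - v 3))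
      ring
    rw [e1]

/-! ### the variables of the network -/

variable {c d : ℕ}

/-- the corners -/
noncomputable def Vu (Y : Nw c d) (u : ℂ) (T : Fin d → ℂ) (J : Fin c → ℂ) (s : Fin c) :
    Fin 4 → ℂ :=
  ![u * Y.q0 s 0 + ∑ j, T j * Y.E j s 0, u * Y.q0 s 1 + ∑ j, T j * Y.E j s 1,
    u * Y.q0 s 2 + ∑ j, T j * Y.E j s 2, J s]

lemma Vu_one (Y : Nw c d) (T : Fin d → ℂ) (J : Fin c → ℂ) (s : Fin c) :
    Vu Y 1 T J s = Y.v T J s := by
  unfold Vu Nw.v Nw.x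
  simp only [one_mul]

lemma Vu_zero (Y : Nw c d) (T : Fin d → ℂ) (J : Fin c → ℂ) (s : Fin c) :
    Vu Y 0 T J s = Y.dv T J s := by
  unfold Vu Nw.dv
  simp only [zero_mul, zero_add]

lemma Vu_zer (Y : Nw c d) (hY : Y.Okb) (u : ℂ) (T : Fin d → ℂ) (s : Fin c) (i : Fin 3)
    (h : qc (Y.α s) i = 0) : u * Y.q0 s i + ∑ j, T j * (Y.E j s i : ℂ) = 0 := by
  obtain ⟨h1, h2⟩ := hY.zer s i h
  rw [h1]
  simp [h2]

lemma sy_zer (Y : Nw c d) (hY : Y.Okb) (u h : ℂ) (T : Fin d → ℂ) (J ζ : Fin c → ℂ) (hJ : Y.AJ J)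
    (s : Fin c) (k : Fin 6) (hk : Y.α s k = 0) : sy h (Vu Y u T J s) (ζ s) k = 0 := by
  have hF := hY.fr s
  revert hk
  fin_cases k
  · intro hk
    exact Vu_zer Y hY u T s 0 hk
  · intro hk
    exact hJ s hk
  · intro hk
    exact absurd hk hF.p2.ne'
  · intro hk
    exact Vu_zer Y hY u T s 2 hk
  · intro hk
    have h4 : Y.α s 4 = 0 := hk
    have h1 := hF.z14.2 h4
    have e1 : u * Y.q0 s 1 + ∑ j, T j * (Y.E j s 1 : ℂ) = 0 := by
      apply Vu_zer Y hY u T s 1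
      show Y.α s 1 + Y.α s 4 = 0
      rw [h1, h4, add_zero]
    show u * Y.q0 s 1 + ∑ j, T j * (Y.E j s 1 : ℂ) - J s = 0
    rw [e1, hJ s h1, sub_zero]
  · intro hk
    exact absurd hk hF.p5.ne'

lemma lf_zer (Y : Nw c d) (hY : Y.Okb) (u : ℂ) (T : Fin d → ℂ) (J : Fin c → ℂ) (hJ : Y.AJ J)
    (s : Fin c) (i : Fin 6) (hk : ctr (Y.α s) i = 0) : lf (Vu Y u T J s) i = 0 := by
  have hF := hY.fr s
  have z := fun k hk => sy_zer Y hY u 0 T J (fun _ => 0) hJ s k hk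
  have n0 := hF.nn 0
  have n1 := hF.nn 1
  have n3 := hF.nn 3
  have n4 := hF.nn 4
  have s1 := hF.s1
  have s2 := hF.s2
  revert hk
  fin_cases i
  · intro hk
    exact z 0 hk
  · intro hk
    exact z 1 hk
  · intro hk
    have h2 : 1 / 2 - Y.α s 2 = 0 := hk
    have a := z 0 (by linarith)
    have b := z 1 (by linarith)
    show Vu Y u T J s 0 + Vu Y u T J s 3 = 0
    have a' : Vu Y u T J s 0 = 0 := a
    have b' : Vu Y u T J s 3 = 0 := b
    rw [a', b', add_zero]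
  · intro hk
    exact z 3 hk
  · intro hk
    exact z 4 hk
  · intro hk
    have h2 : 1 / 2 - Y.α s 5 = 0 := hk
    have a := z 3 (by linarith)
    have b := z 4 (by linarith)
    show Vu Y u T J s 2 + (Vu Y u T J s 1 - Vu Y u T J s 3) = 0
    have a' : Vu Y u T J s 2 = 0 := a
    have b' : Vu Y u T J s 1 - Vu Y u T J s 3 = 0 := b
    rw [a', b', add_zero]

/-- (3) -/
lemma GI_eq (Y : Nw c d) (hY : Y.Okb) (β : Fin c → Bool) (w : Fin c → ℤ) (T T' : Fin d → ℂ)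
    (J ζ J' ζ' : Fin c → ℂ) (hJ : Y.AJ J) (hJ' : Y.AJ J') :
    GI w (fun s => sx (β s) (1 / 2) (Y.v T J s) (ζ s))
      (fun s => sx (β s) 0 (Y.dv T' J' s) (ζ' s)) = Y.GP w T J ζ T' J' ζ' := by
  unfold GI Nw.GP
  apply Finset.sum_congr rfl
  intro s _
  rw [n1_sx, n2_sx, n1_sx, n2_sx]
  congr 1
  · beta_reduce
    rw [sx_sy, sx_sy]
    rw [sum_bf (β s) (fun a b a' b' => gT a b a' b')]
    unfold PG
    apply Finset.sum_congr rfl
    intro i _
    rw [term_gT]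
    split_ifs with h
    · rw [← Vu_one, ← Vu_zero, lf_zer Y hY 1 T J hJ s i h, lf_zer Y hY 0 T' J' hJ' s i h, gT_zero]
    · rfl
  · ring

/-- (4) -/
lemma PI_eq (Y : Nw c d) (hY : Y.Okb) (β : Fin c → Bool) (w : Fin c → ℤ) (T : Fin d → ℂ)
    (J ζ : Fin c → ℂ) (hJ : Y.AJ J) :
    PI w (fun s => sx (β s) (1 / 2) (Y.v T J s) (ζ s)) = Y.Ph w T J ζ := by
  unfold PI Nw.Ph
  apply Finset.sum_congr rfl
  intro s _
  rw [n1_sx, n2_sx]
  have e1 : ∑ i, LT (dn (sx (β s) (1 / 2) (Y.v T J s) (ζ s)) i)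
      (sx (β s) (1 / 2) (Y.v T J s) (ζ s) i) = PE (Y.α s) (Y.v T J s) (ζ s) := by
    rw [sx_sy]
    rw [sum_bf (β s) (fun a b (_ _ : ℂ) => LT a b) _ (fun _ => (0 : ℂ))]
    unfold PE
    apply Finset.sum_congr rfl
    intro i _
    rw [term_LT]
    split_ifs with h
    · rw [← Vu_one, lf_zer Y hY 1 T J hJ s i h, LT_zero]
    · rfl
  rw [e1]
  ring

/-! ### solutions -/

lemma Sol_sum (hSO : S_SO) {D : List Pc} {ι : Type} (S : Finset ι)
    (x : ι → Fin D.length → Fin 6 → ℂ) (h0 : Sol D (0 : Fin D.length → Fin 6 → ℂ) [0, 0] 0)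
    (h : ∀ j ∈ S, Sol D (x j) [0, 0] 0) : Sol D (∑ j ∈ S, x j) [0, 0] 0 := by
  classical
  induction S using Finset.induction_on with
  | empty => simpa using h0
  | insert j S hj ih =>
    rw [Finset.sum_insert hj]
    have h1 := h j (Finset.mem_insert_self _ _)
    have h2 := ih fun i hi => h i (Finset.mem_insert_of_mem hi)
    simpa using sol_add hSO h1 h2

lemma cv_add {R : Type} [CommRing R] (β : Bool) (x y : Fin 6 → R) (i : Fin 3) :
    cv β (x + y) i = cv β x i + cv β y i := by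
  cases β
  · fin_cases i
    · rfl
    · show (x 2 + y 2) + (x 5 + y 5) = (x 2 + x 5) + (y 2 + y 5)
      ring
    · rfl
  · fin_cases i
    · rfl
    · show (x 1 + y 1) + (x 4 + y 4) = (x 1 + x 4) + (y 1 + y 4)
      ring
    · rfl

lemma cv_smul {R : Type} [CommRing R] (β : Bool) (r : R) (x : Fin 6 → R) (i : Fin 3) :
    cv β (r • x) i = r * cv β x i := by
  cases β
  · fin_cases i
    · rfl
    · show r * x 2 + r * x 5 = r * (x 2 + x 5)
      ring
    · rfl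
  · fin_cases i
    · rfl
    · show r * x 1 + r * x 4 = r * (x 1 + x 4)
      ring
    · rfl

lemma cv_map {R R' : Type} [CommRing R] [CommRing R'] (f : R →+ R') (β : Bool) (x : Fin 6 → R)
    (i : Fin 3) : cv β (fun k => f (x k)) i = f (cv β x i) := by
  cases β
  · fin_cases i
    · rfl
    · exact (map_add f _ _).symm
    · rfl
  · fin_cases i
    · rfl
    · exact (map_add f _ _).symm
    · rfl

/-- real homogeneous solutions -/
lemma span_cv {D : List Pc} (L : Submodule ℤ (Fin D.length → Fin 6 → ℤ)) (hL : IsLat D L)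
    (β : Fin D.length → Bool) (Y : Nw D.length d)
    (E2 : ∀ δ : Fin D.length → Fin 6 → ℤ, So D δ 0 →
      ∃! t : Fin d → ℤ, ∀ s i, cv (β s) (δ s) i = ∑ j, t j * Y.E j s i)
    (y : Fin D.length → Fin 6 → ℝ) (hy : y ∈ Submodule.span ℝ (toR '' (L : Set _))) :
    ∃ t : Fin d → ℝ, ∀ s i, cv (β s) (y s) i = ∑ j, t j * (Y.E j s i : ℝ) := by
  induction hy using Submodule.span_induction with
  | mem x hx =>
    obtain ⟨δ, hδ, rfl⟩ := hx
    obtain ⟨t, ht, _⟩ := E2 δ ((hL δ).1 hδ)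
    refine ⟨fun j => (t j : ℝ), fun s i => ?_⟩
    have e : toR δ s = fun k => (Int.castAddHom ℝ) (δ s k) := rfl
    rw [e, cv_map, ht s i]
    simp
  | zero =>
    refine ⟨fun _ => 0, fun s i => ?_⟩
    have := cv_smul (β s) (0 : ℝ) (0 : Fin 6 → ℝ) i
    rw [zero_smul, zero_mul] at this
    simpa using this
  | add x y _ _ hx hy =>
    obtain ⟨t, ht⟩ := hx
    obtain ⟨t', ht'⟩ := hy
    refine ⟨fun j => t j + t' j, fun s i => ?_⟩
    rw [Pi.add_apply, cv_add, ht s i, ht' s i, ← Finset.sum_add_distrib]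
    apply Finset.sum_congr rfl
    intro j _
    ring
  | smul r x _ hx =>
    obtain ⟨t, ht⟩ := hx
    refine ⟨fun j => r * t j, fun s i => ?_⟩
    rw [Pi.smul_apply, cv_smul, ht s i, Finset.mul_sum]
    apply Finset.sum_congr rfl
    intro j _
    ring

lemma So_iff {D : List Pc} (hSO : S_SO) (hOZ : S_OZ) (hSP : Pool.Agent.Q99.FAL.S_SP)
    (hV : Val D 1) (a : Fin D.length → Fin 6 → ℝ) (hM : Mx D a) (β : Fin D.length → Bool)
    (Y : Nw D.length d) (hN : NetOf D a β Y) (hY : Y.Okb) (u : ℂ)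
    (x : Fin D.length → Fin 6 → ℂ) : So D x u ↔ ∃ (T : Fin d → ℂ) (J ζ : Fin D.length → ℂ),
      Y.AJ J ∧ x = fun s => sx (β s) (u / 2) (Vu Y u T J s) (ζ s) := by
  classical
  obtain ⟨a0, ha0, hq0⟩ := hN.q0
  -- outer corners
  have hout : ∀ s i, Out D 1 s (c6 i) → a s i = 0 :=
    hOZ.1 D 1 hV a [0, 0] 1 rfl (by simp) hM.1.nonneg hM.1.sol
  have hout' : ∀ s i, a s i = 0 → Out D 1 s (c6 i) := by
    intro s i h
    by_contra hn
    exact (hM.1.pos s i hn).ne' h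
  -- the complex solutions from the integral ones
  have hcast : ∀ (δ : Fin D.length → Fin 6 → ℤ) (v : ℤ), So D δ v →
      So D (fun s i => (δ s i : ℂ)) (v : ℂ) := by
    intro δ v hδ
    refine ⟨?_, fun k i h => ?_⟩
    · have := hSO.2.2.2.1 ℤ ℂ (Int.castAddHom ℂ) D δ [0, 0] v hδ.1
      simpa using this
    · show ((δ k i : ℤ) : ℂ) = 0
      rw [hδ.2 k i h, Int.cast_zero]
  have hA := hcast a0 1 ha0
  have hcvA : ∀ s i, cv (β s) (fun k => (a0 s k : ℂ)) i = (Y.q0 s i : ℂ) := by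
    intro s i
    have := cv_map (Int.castAddHom ℂ) (β s) (a0 s) i
    rw [hq0 s]
    exact this
  have hzero : Sol D (0 : Fin D.length → Fin 6 → ℂ) [0, 0] 0 := by
    have := sol_smul hSO 0 hA.1
    simpa using this
  constructor
  · rintro ⟨hs, ho⟩
    -- the homogeneous solution
    set z : Fin D.length → Fin 6 → ℂ := x + (-u) • (fun s i => (a0 s i : ℂ)) with hz
    have hz1 : Sol D z [0, 0] 0 := by
      have := sol_add hSO hs (sol_smul hSO (-u) hA.1)
      rw [Int.cast_one, mul_one, add_neg_cancel] at this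
      exact this
    have hz2 : ∀ k i, Out D 1 k (c6 i) → z k i = 0 := by
      intro k i h
      have h1 : (a0 k i : ℂ) = 0 := hA.2 k i h
      show x k i + (-u) * (a0 k i : ℂ) = 0
      rw [ho k i h, h1]
      ring
    have hL : IsLat D (lat hSO D a0 ha0.1) := fun δ => Iff.rfl
    have hre := hSO.2.2.2.1 ℂ ℝ Complex.reAddGroupHom D z [0, 0] 0 hz1
    have him := hSO.2.2.2.1 ℂ ℝ Complex.imAddGroupHom D z [0, 0] 0 hz1
    have hre' : Sol D (fun k i => (z k i).re) [0, 0] 0 := by simpa using hre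
    have him' : Sol D (fun k i => (z k i).im) [0, 0] 0 := by simpa using him
    obtain ⟨t, ht⟩ := span_cv _ hL β Y hN.E2 _ (hSP hSO D _ hL _ hre' fun k i h => by
      rw [hz2 k i h, Complex.zero_re])
    obtain ⟨t', ht'⟩ := span_cv _ hL β Y hN.E2 _ (hSP hSO D _ hL _ him' fun k i h => by
      rw [hz2 k i h, Complex.zero_im])
    have hcz : ∀ s i, cv (β s) (z s) i = ∑ j, ((t j : ℂ) + t' j * Complex.I) * (Y.E j s i : ℂ) := by
      intro s i
      have e1 := cv_map Complex.reAddGroupHom (β s) (z s) i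
      have e2 := cv_map Complex.imAddGroupHom (β s) (z s) i
      have e1' : (cv (β s) (z s) i).re = ∑ j, t j * (Y.E j s i : ℝ) := by
        rw [← ht s i]; exact e1.symm
      have e2' : (cv (β s) (z s) i).im = ∑ j, t' j * (Y.E j s i : ℝ) := by
        rw [← ht' s i]; exact e2.symm
      rw [← Complex.re_add_im (cv (β s) (z s) i), e1', e2']
      push_cast
      rw [Finset.sum_mul, ← Finset.sum_add_distrib]
      apply Finset.sum_congr rfl
      intro j _
      ring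
    have hcx : ∀ s i, cv (β s) (x s) i = u * Y.q0 s i +
        ∑ j, ((t j : ℂ) + t' j * Complex.I) * (Y.E j s i : ℂ) := by
      intro s i
      have e : x s = z s + u • (fun k => (a0 s k : ℂ)) := by
        funext k
        show x s k = (x s k + (-u) * (a0 s k : ℂ)) + u * (a0 s k : ℂ)
        ring
      rw [e, cv_add, cv_smul, hcz, hcvA]
      ring
    refine ⟨fun j => (t j : ℂ) + t' j * Complex.I, fun s => bf (β s) (x s) 1,
      fun s => n1 (x s) - n2 (x s), ?_, ?_⟩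
    · intro s h
      have h1 : bf (β s) (a s) 1 = 0 := by rw [← hN.al s]; exact h
      show bf (β s) (x s) 1 = 0
      cases hb : β s
      · rw [hb] at h1
        have h2 : a s 2 = 0 := h1
        exact ho s 2 (hout' s 2 h2)
      · rw [hb] at h1
        have h2 : a s 1 = 0 := h1
        exact ho s 1 (hout' s 1 h2)
    · funext s
      have hn : n1 (x s) + n2 (x s) = u := ((hSO.1 ℂ D x [0, 0] u).1 hs).1 s
      have hn' : n1 (bf (β s) (x s)) + n2 (bf (β s) (x s)) = u := by rw [n1_bf, n2_bf, hn]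
      have hc := hcx s
      rw [cv_eq] at hc
      have c0 : bf (β s) (x s) 0 = _ := hc 0
      have c1 : bf (β s) (x s) 1 + bf (β s) (x s) 4 = _ := hc 1
      have c2 : bf (β s) (x s) 3 = _ := hc 2
      have hz' : n1 (x s) - n2 (x s) = n1 (bf (β s) (x s)) - n2 (bf (β s) (x s)) := by
        rw [n1_bf, n2_bf]
      have main : bf (β s) (x s) = sy (u / 2) (Vu Y u (fun j => (t j : ℂ) + t' j * Complex.I)
          (fun s => bf (β s) (x s) 1) s) (n1 (x s) - n2 (x s)) := ?_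
      · calc x s = bf (β s) (bf (β s) (x s)) := (bf_bf _ _).symm
          _ = _ := congrArg (bf (β s)) main
      rw [hz']
      have hn1 : n1 (bf (β s) (x s)) =
        bf (β s) (x s) 0 + bf (β s) (x s) 1 + bf (β s) (x s) 2 := rfl
      have hn2 : n2 (bf (β s) (x s)) =
        bf (β s) (x s) 3 + bf (β s) (x s) 4 + bf (β s) (x s) 5 := rfl
      have gen : ∀ J' : Fin D.length → ℂ, J' s = bf (β s) (x s) 1 → bf (β s) (x s) =
          sy (u / 2) (Vu Y u (fun j => (t j : ℂ) + t' j * Complex.I) J' s)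
          (n1 (bf (β s) (x s)) - n2 (bf (β s) (x s))) := ?_
      · exact gen _ rfl
      intro J' hJ'
      generalize bf (β s) (x s) = y at *
      funext k
      fin_cases k
      · exact c0
      · exact hJ'.symm
      · show y 2 = u / 2 + (n1 y - n2 y) / 2 -
          (u * Y.q0 s 0 + ∑ j, ((t j : ℂ) + t' j * Complex.I) * (Y.E j s 0 : ℂ)) - J' s
        rw [← c0, hJ']
        linear_combination (1 / 2) * hn' - hn1
      · exact c2
      · show y 4 = (u * Y.q0 s 1 + ∑ j, ((t j : ℂ) + t' j * Complex.I) * (Y.E j s 1 : ℂ)) - J' s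
        rw [← c1, hJ']
        ring
      · show y 5 = u / 2 - (n1 y - n2 y) / 2 -
          (u * Y.q0 s 2 + ∑ j, ((t j : ℂ) + t' j * Complex.I) * (Y.E j s 2 : ℂ)) -
          ((u * Y.q0 s 1 + ∑ j, ((t j : ℂ) + t' j * Complex.I) * (Y.E j s 1 : ℂ)) - J' s)
        rw [← c1, ← c2, hJ']
        linear_combination (1 / 2) * hn' - hn2
  · rintro ⟨T, J, ζ, hJ, rfl⟩
    choose δ hδ hδE using hN.E1
    set x0 : Fin D.length → Fin 6 → ℂ := u • (fun s i => (a0 s i : ℂ)) +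
      ∑ j, T j • (fun s i => (δ j s i : ℂ)) with hx0
    have h0 : Sol D x0 [0, 0] u := by
      have h1 := sol_smul hSO u hA.1
      rw [Int.cast_one, mul_one] at h1
      have h2 : Sol D (∑ j, T j • (fun s i => (δ j s i : ℂ))) [0, 0] 0 := by
        apply Sol_sum hSO _ _ hzero
        intro j _
        have := sol_smul hSO (T j) (hcast (δ j) 0 (hδ j)).1
        rwa [Int.cast_zero, mul_zero] at this
      have := sol_add hSO h1 h2
      rwa [add_zero] at this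
    have hn0 : ∀ s, n1 (x0 s) + n2 (x0 s) = u := ((hSO.1 ℂ D x0 [0, 0] u).1 h0).1
    have hcv0 : ∀ s i, cv (β s) (x0 s) i = u * Y.q0 s i + ∑ j, T j * (Y.E j s i : ℂ) := by
      intro s i
      have e : x0 s = u • (fun k => (a0 s k : ℂ)) + ∑ j, T j • (fun k => (δ j s k : ℂ)) := by
        rw [hx0]
        funext k
        simp only [Pi.add_apply, Pi.smul_apply, Finset.sum_apply, smul_eq_mul]
      rw [e, cv_add, cv_smul, hcvA]
      congr 1
      have hsum : ∀ S : Finset (Fin d), cv (β s) (∑ j ∈ S, T j • (fun k => (δ j s k : ℂ))) i =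
          ∑ j ∈ S, T j * (Y.E j s i : ℂ) := by
        intro S
        induction S using Finset.induction_on with
        | empty =>
          rw [Finset.sum_empty, Finset.sum_empty]
          have := cv_smul (β s) (0 : ℂ) (0 : Fin 6 → ℂ) i
          rw [zero_smul, zero_mul] at this
          exact this
        | insert j S hj ih =>
          rw [Finset.sum_insert hj, Finset.sum_insert hj, cv_add, cv_smul, ih]
          congr 2
          have := cv_map (Int.castAddHom ℂ) (β s) (δ j s) i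
          rw [hδE j s]
          exact this
      exact hsum _
    refine ⟨?_, ?_⟩
    · apply Sol_cor D x0 _ [0, 0] u _ h0
      intro s
      apply cor_of_cv (β s)
      · funext i
        rw [hcv0 s i, sx_sy, cv_bf]
        fin_cases i
        · rfl
        · show _ = Vu Y u T J s 3 + (Vu Y u T J s 1 - Vu Y u T J s 3)
          rw [add_sub_cancel]
          rfl
        · rfl
      · rw [hn0 s, n1_sx, n2_sx]
        ring
    · intro s i ho
      have h1 := hout s i ho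
      have h2 : a s = bf (β s) (Y.α s) := by rw [hN.al s, bf_bf]
      rw [h2] at h1
      have key := fun k hk => sy_zer Y hY u (u / 2) T J ζ hJ s k hk
      show sx (β s) (u / 2) (Vu Y u T J s) (ζ s) i = 0
      rw [sx_sy]
      revert h1
      cases hb : β s
      · fin_cases i
        · exact fun h => key 0 h
        · exact fun h => key 2 h
        · exact fun h => key 1 h
        · exact fun h => key 3 h
        · exact fun h => key 5 h
        · exact fun h => key 4 h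
      · exact fun h => key i h

theorem task_NT : S_NTb := by
  intro _ D hV hP hD a hM d β Y hN hY
  have hSO := Pool.Agent.Q237.FAL.task_SO
  have hOZ := Pool.Agent.Q237.FAL.task_OZ
  have hSP := Pool.Agent.Q299.FAL.task_SP
  refine ⟨fun x => ?_, fun x => ?_, fun w T T' J ζ J' ζ' hJ hJ' =>
    GI_eq Y hY β w T T' J ζ J' ζ' hJ hJ', fun w T J ζ hJ => PI_eq Y hY β w T J ζ hJ⟩
  · rw [So_iff hSO hOZ hSP hV a hM β Y hN hY 1 x]
    simp only [Vu_one]
  · rw [So_iff hSO hOZ hSP hV a hM β Y hN hY 0 x]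
    simp only [Vu_zero, zero_div]

end Pool.Agent.Q99.HU.Q166
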